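import Pool.Agent.Run7.h30.DB.Main

/-!
# The h-vector and the regularity of `(S_r)` algebras which are Du Bois in codimension `r - 2`

Let `R` be a standard graded algebra of dimension `d` over a field of characteristic zero which
satisfies `(S_r)` and is Du Bois in codimension `r - 2`. Then `h_i(R) ≥ 0` for all `i ≤ r`, and `R` is
Cohen–Macaulay if `reg R < r`. Both questions of the problem have a positive answer for all `r`.

Mathlib has neither the Du Bois complex nor the cohomology of coherent sheaves. The cohomology groups
of the general linear sections `X_k` of `X = Proj R` and the local cohomology groups of the rings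
`R / (θ 0, …, θ (k - 1))` are described by the exact sequences which relate them (`LocalCohomology`,
`DuBoisCohomology`), and three theorems on the Du Bois complex are used
(`DuBoisTheorems`): the surjectivity of `H^i(X, O_X) → H^i(X, Ω⁰_X)` (Du Bois), the surjectivity of
`H^i_x(O_X) → H^i_x(Ω⁰_X)` (Kovács and Schwede), and the vanishing theorem of Kodaira type for the
cohomology sheaves of the dual of `Ω⁰` (Ambro, Fujino, Kovács). Serre's condition, the h-vector, the
ring `R` and the conclusion, a regular sequence of length `d = dim R`, are those of Mathlib.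

The proof. Let `F` be the fibre of `O_X → Ω⁰_X`. Since the points which are not Du Bois have
codimension at least `r - 1`, the theorem of Kovács and Schwede and `(S_r)` show that the cohomology
sheaves of `F` vanish in degrees at most `r - 2`. With the theorem of Du Bois in the remaining case
`(i, n) = (r - 2, 0)` this gives `H^i(X, Ω⁰(n)) = 0` for `i ≥ 1`, `n ≥ 0`, `i + n ≤ r - 2`. The
vanishing theorem and `(S_r)` give `H^i(X_k, Ω⁰(-1)) = 0` for `i < min (r, dim X_k)`. By the exact
sequences of the hyperplane sections, `H^i(X_k, Ω⁰(n)) = 0` for `i ≥ 1`, `n ≥ -1`, `i + n ≤ r - 2` and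
`i < dim X_k`. By induction on `k` the map from the piece of degree `n` of `R / (θ 0, …, θ (k - 1))` to
`H^0(X_k, Ω⁰(n))` is bijective for `n ≤ r - 2` if `dim X_k ≥ 1`, and injective for `n ≤ r - 1`. Since
`θ k` is injective on `⊕ H^0(X_k, Ω⁰(n))`, its kernel on `R / (θ 0, …, θ (k - 1))` vanishes in degrees
at most `r - 1`. Hence `h_j` is the dimension of the piece of degree `j` of `R / (θ 0, …, θ (d - 1))`
for `j ≤ r`. The kernels are contained in the local cohomology groups `H^0_𝔪`, which vanish in
degrees `≥ r` if `reg R < r`, and then `θ 0, …, θ (d - 1)` is a regular sequence.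
-/

set_option autoImplicit false

universe u v

namespace Pool.Agent.Results.MP_2c751f_ag.HVectorsDuBoisLowCodim

open Run7.h30.DB

/-- **Theorem.** -/
theorem result {K : Type u} [Field K] [CharZero K] {R : Type u} [CommRing R] [Algebra K R]
    (𝒜 : ℕ → Submodule K R) [GradedAlgebra 𝒜] (hA : IsStandardGraded 𝒜)
    (d : ℕ) (hd : ringKrullDim R = d) (IsDB : PrimeSpectrum R → Prop)
    (θ : ℕ → R) (hθ : GeneralForms 𝒜 d θ)
    (L : LocalCohomology.{u, v} 𝒜 d θ) (C : DuBoisCohomology.{u, v} 𝒜 θ L.toTower)
    (hC : DuBoisTheorems C IsDB)
    (r : ℕ) (hr : 1 ≤ r) (hS : SerreCondition R r) (hDB : DuBoisInCodim IsDB r) :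
    (∀ j ≤ r, 0 ≤ hVector 𝒜 d j) ∧
      (RegularityLT L.toTower r → RingTheory.Sequence.IsRegular R (List.ofFn fun i : Fin d => θ i)) :=
  answer C hA hd hθ hC hr hS hDB

end Pool.Agent.Results.MP_2c751f_ag.HVectorsDuBoisLowCodim
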